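import Mathlib
import Pool.Agent.W760.SlitGreen

set_option autoImplicit false

open Set Filter Topology Metric InnerProductSpace MeasureTheory
open scoped Real

namespace Pool.Agent.Results.MP_d9eea5_an.SlitPlane

/-- `ℓ(r)`: the angular measure of the part of `E` that lies on the circle `|z| = r`. -/
noncomputable def angMeas (E : Set ℂ) (r : ℝ) : ℝ :=
  volume.real {θ : ℝ | θ ∈ Ioc (-π) π ∧ (r : ℂ) * Complex.exp ((θ : ℂ) * Complex.I) ∈ E}

/-- The circular symmetrisation `E^*`: `0` belongs to it iff `0 ∈ E`; a point `z ≠ 0` belongs to it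
iff `E` contains the whole circle of radius `|z|`, or `|arg z| < ℓ(|z|) / 2`. (If `E` does not meet
that circle then `ℓ(|z|) = 0` and no point of the circle belongs to `E^*`.) -/
def circSymm (E : Set ℂ) : Set ℂ :=
  {z | (z = 0 ∧ (0 : ℂ) ∈ E) ∨
    (z ≠ 0 ∧ (sphere (0 : ℂ) ‖z‖ ⊆ E ∨ |Complex.arg z| < angMeas E ‖z‖ / 2))}

/-- `h` is a positive harmonic function on `G \ {a}` such that `h(z) + log |z - a|` extends to a
harmonic function near `a`. -/
structure HasLogPole (G : Set ℂ) (a : ℂ) (h : ℂ → ℝ) : Prop where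
  harm : HarmonicOnNhd h (G \ {a})
  pos : ∀ z ∈ G \ {a}, 0 < h z
  pole : ∃ H : ℂ → ℝ, HarmonicAt H a ∧ ∀ᶠ z in 𝓝[≠] a, h z = H z - Real.log ‖z - a‖

/-- `g` is the Green's function of `G` with pole `a`: the smallest positive harmonic function on
`G \ {a}` with a logarithmic pole at `a`. -/
structure IsGreen (G : Set ℂ) (a : ℂ) (g : ℂ → ℝ) : Prop where
  hasLogPole : HasLogPole G a g
  minimal : ∀ h : ℂ → ℝ, HasLogPole G a h → ∀ z ∈ G \ {a}, g z ≤ h z

/-- The part `G_lam` of `G` where the Green's function `g` with pole `a` exceeds `lam`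
(at the pole the Green's function is `+∞`). -/
def levelSet (G : Set ℂ) (a : ℂ) (g : ℂ → ℝ) (lam : ℝ) : Set ℂ :=
  {z | z ∈ G ∧ (z = a ∨ lam < g z)}

open Pool.Agent.W760.Green

/-! ### The domain and its symmetrisation -/

lemma mem_Dom_neg {z : ℂ} : z ∈ Dom (-1) ↔ 1 - z ∈ Complex.slitPlane := by
  show 1 + ((-1 : ℝ) : ℂ) * z ∈ Complex.slitPlane ↔ _
  rw [show 1 + ((-1 : ℝ) : ℂ) * z = 1 - z by push_cast; ring]

lemma mem_Dom_one {z : ℂ} : z ∈ Dom 1 ↔ 1 + z ∈ Complex.slitPlane := by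
  show 1 + ((1 : ℝ) : ℂ) * z ∈ Complex.slitPlane ↔ _
  rw [show 1 + ((1 : ℝ) : ℂ) * z = 1 + z by push_cast; ring]

lemma small_mem {s : ℝ} (hs : |s| = 1) {z : ℂ} (hz : ‖z‖ < 1) : z ∈ Dom s := by
  show 1 + (s : ℂ) * z ∈ Complex.slitPlane
  left
  have h1 : |((s : ℂ) * z).re| ≤ ‖(s : ℂ) * z‖ := Complex.abs_re_le_norm _
  rw [norm_mul, Complex.norm_real, Real.norm_eq_abs, hs, one_mul] at h1
  have h2 := neg_abs_le ((s : ℂ) * z).re
  rw [Complex.add_re, Complex.one_re]
  linarith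

/-- a point `z` of modulus at least one is outside `ℂ \ [1,∞)` iff `z = |z|` -/
lemma not_mem_neg {z : ℂ} (hz : 1 ≤ ‖z‖) : z ∉ Dom (-1) ↔ z = (‖z‖ : ℂ) := by
  rw [mem_Dom_neg, Complex.mem_slitPlane_iff]
  push Not
  rw [Complex.sub_re, Complex.one_re, Complex.sub_im, Complex.one_im]
  constructor
  · rintro ⟨h1, h2⟩
    have him : z.im = 0 := by linarith
    have hre : z = ((z.re : ℝ) : ℂ) := by
      apply Complex.ext
      · simp
      · simp [him]
    have : ‖z‖ = z.re := by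
      rw [hre, Complex.norm_real, Real.norm_eq_abs, Complex.ofReal_re, abs_of_nonneg (by linarith)]
    rw [this]; exact hre
  · intro h
    constructor
    · rw [h, Complex.ofReal_re]; linarith
    · rw [h, Complex.ofReal_im]; ring

lemma mem_one_iff {z : ℂ} (hz : 1 ≤ ‖z‖) : z ∈ Dom 1 ↔ Complex.arg z ≠ π := by
  rw [mem_Dom_one, Complex.mem_slitPlane_iff, ← not_iff_not, not_not]
  constructor
  · intro h
    push Not at h
    rw [Complex.add_re, Complex.one_re, Complex.add_im, Complex.one_im] at h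
    rw [Complex.arg_eq_pi_iff]
    exact ⟨by linarith, by linarith⟩
  · intro h
    push Not
    rw [Complex.add_re, Complex.one_re, Complex.add_im, Complex.one_im]
    rw [Complex.arg_eq_pi_iff] at h
    refine ⟨?_, by rw [h.2]; ring⟩
    have hre : z = ((z.re : ℝ) : ℂ) := by
      apply Complex.ext
      · simp
      · simp [h.2]
    have : ‖z‖ = -z.re := by
      rw [hre, Complex.norm_real, Real.norm_eq_abs, Complex.ofReal_re, abs_of_neg h.1]
    linarith

lemma angMeas_neg {t : ℝ} (ht : 1 ≤ t) : angMeas (Dom (-1)) t = 2 * π := by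
  unfold angMeas
  have hset : {θ : ℝ | θ ∈ Ioc (-π) π ∧ (t : ℂ) * Complex.exp ((θ : ℂ) * Complex.I) ∈ Dom (-1)}
      = Ioc (-π) π \ {0} := by
    ext θ
    rw [mem_ofPred_eq, Set.mem_sdiff, mem_singleton_iff]
    refine and_congr_right (fun hθ => ?_)
    have hn : ‖(t : ℂ) * Complex.exp ((θ : ℂ) * Complex.I)‖ = t := by
      rw [norm_mul, Complex.norm_exp_ofReal_mul_I, Complex.norm_real, Real.norm_eq_abs,
        abs_of_nonneg (by linarith), mul_one]
    rw [← not_iff_not, not_mem_neg (by rw [hn]; exact ht), hn, not_not]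
    constructor
    · intro h
      have ht0 : (t : ℂ) ≠ 0 := by
        rw [Ne, Complex.ofReal_eq_zero]; linarith
      have h2 : Complex.exp ((θ : ℂ) * Complex.I) = 1 := by
        apply mul_left_cancel₀ ht0
        rw [h, mul_one]
      have h3 := congrArg Complex.arg h2
      rw [Complex.arg_exp_mul_I, Complex.arg_one,
        (toIocMod_eq_self Real.two_pi_pos).2 ⟨hθ.1, by have := hθ.2; linarith⟩] at h3
      exact h3
    · rintro rfl
      simp
  rw [hset, measureReal_def, measure_sdiff_null (by simp)]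
  rw [Real.volume_Ioc, ENNReal.toReal_ofReal (by linarith [Real.pi_pos])]
  ring

lemma symm_eq : circSymm (Dom (-1)) = Dom 1 := by
  ext z
  simp only [circSymm, mem_ofPred_eq]
  by_cases hz0 : z = 0
  · subst hz0
    have h1 : (0 : ℂ) ∈ Dom (-1) := small_mem (by norm_num) (by simp)
    have h2 : (0 : ℂ) ∈ Dom 1 := small_mem (by norm_num) (by simp)
    simp [h1, h2]
  by_cases hz : ‖z‖ < 1
  · have h2 : z ∈ Dom 1 := small_mem (by norm_num) hz
    have h3 : sphere (0 : ℂ) ‖z‖ ⊆ Dom (-1) := by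
      intro w hw
      rw [mem_sphere_zero_iff_norm] at hw
      exact small_mem (by norm_num) (by rw [hw]; exact hz)
    simp [hz0, h2, h3]
  · push Not at hz
    have h3 : ¬ sphere (0 : ℂ) ‖z‖ ⊆ Dom (-1) := by
      intro h
      have h4 : ((‖z‖ : ℝ) : ℂ) ∈ Dom (-1) := by
        apply h
        rw [mem_sphere_zero_iff_norm, Complex.norm_real, norm_norm]
      have h5 : ((‖z‖ : ℝ) : ℂ) ∉ Dom (-1) := by
        rw [not_mem_neg]
        · rw [Complex.norm_real, norm_norm]
        · rw [Complex.norm_real, norm_norm]; exact hz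
      exact h5 h4
    rw [mem_one_iff hz, angMeas_neg hz]
    simp only [hz0, false_and, false_or, h3, not_false_eq_true, true_and, ne_eq]
    rw [show 2 * π / 2 = π by ring]
    constructor
    · intro h h2
      rw [h2, abs_of_pos Real.pi_pos] at h
      exact lt_irrefl _ h
    · intro h
      exact lt_of_le_of_ne (Complex.abs_arg_le_pi z) (fun h2 => by
        rcases eq_or_eq_neg_of_abs_eq h2 with h3 | h3
        · exact h h3
        · have := Complex.neg_pi_lt_arg z
          linarith)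

/-! ### Topology of the domains -/

lemma star (s : ℝ) : StarConvex ℝ (0 : ℂ) (Dom s) := by
  rw [starConvex_zero_iff]
  intro z hz t ht0 ht1
  show 1 + (s : ℂ) * (t • z) ∈ Complex.slitPlane
  have h1 := Complex.starConvex_one_slitPlane (show 1 + (s : ℂ) * z ∈ Complex.slitPlane from hz)
    (sub_nonneg.2 ht1) ht0 (by ring)
  rw [Complex.real_smul, Complex.real_smul] at h1
  convert h1 using 1
  rw [Complex.real_smul]
  push_cast
  ring

lemma zero_mem {s : ℝ} (hs : |s| = 1) : (0 : ℂ) ∈ Dom s := small_mem hs (by simp)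

lemma conn {s : ℝ} (hs : |s| = 1) : IsConnected (Dom s) :=
  ((star s).isPathConnected (zero_mem hs)).isConnected

lemma simply {s : ℝ} (hs : |s| = 1) : SimplyConnectedSpace (Dom s) := by
  have : ContractibleSpace (Dom s) := (star s).contractibleSpace ⟨(0 : ℂ), zero_mem hs⟩
  infer_instance

/-! ### Green's functions -/

lemma toPole {G : Set ℂ} {a : ℂ} {h : ℂ → ℝ} (hh : HasLogPole G a h) : LogPole G a h :=
  ⟨hh.harm, hh.pos, hh.pole⟩

lemma ofPole {G : Set ℂ} {a : ℂ} {h : ℂ → ℝ} (hh : LogPole G a h) : HasLogPole G a h :=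
  ⟨hh.harm, hh.pos, hh.pole⟩

lemma real_mem {s a : ℝ} (hb : 0 < 1 + s * a) : (a : ℂ) ∈ Dom s := by
  show 1 + (s : ℂ) * (a : ℂ) ∈ Complex.slitPlane
  left
  simp only [Complex.add_re, Complex.one_re, Complex.mul_re, Complex.ofReal_re,
    Complex.ofReal_im, mul_zero, sub_zero]
  exact hb

lemma isGreen {s a : ℝ} (hs : s ^ 2 = 1) (hb : 0 < 1 + s * a) :
    IsGreen (Dom s) (a : ℂ) (gr s a) :=
  ⟨ofPole (logPole hs hb), fun _ hh => minimal_of_compact (Dom_open s) (real_mem hb)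
    (logPole hs hb) (fun _ hε => compact_super hs hb hε) (toPole hh)⟩

/-! ### The inequality -/

lemma poly_ineq {a r n : ℝ} (ha : 0 < a) (har : a < r) (hr : r < 1) (h1 : 2 - r ≤ n)
    (h2 : n ≤ 2 + r) :
    4 * (1 + a) * (1 - r) * (n - a) ^ 2 < (1 - a) * (n ^ 2 - r ^ 2) * (2 + a - r) ^ 2 := by
  set κ : ℝ := (1 - a) * (2 + a - r) ^ 2 - 4 * (1 + a) * (1 - r) with hκ
  set β : ℝ := 8 * a * (1 + a) * (1 - r) with hβ
  set γ : ℝ := -(1 - a) * r ^ 2 * (2 + a - r) ^ 2 - 4 * (1 + a) * (1 - r) * a ^ 2 with hγ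
  have hβ0 : 0 < β := by
    rw [hβ]
    have : 0 < 1 - r := by linarith
    positivity
  have hf : ∀ x : ℝ, (1 - a) * (x ^ 2 - r ^ 2) * (2 + a - r) ^ 2 -
      4 * (1 + a) * (1 - r) * (x - a) ^ 2 = κ * x ^ 2 + β * x + γ := by
    intro x; rw [hκ, hβ, hγ]; ring
  have hleft : 0 < κ * (2 - r) ^ 2 + β * (2 - r) + γ := by
    rw [← hf]
    have h3 : (1 - a) * ((2 - r) ^ 2 - r ^ 2) * (2 + a - r) ^ 2 -
      4 * (1 + a) * (1 - r) * (2 - r - a) ^ 2 =
        4 * (1 - r) * (2 * a * ((2 - r) * r - a ^ 2)) := by ring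
    rw [h3]
    have h4 : 0 < (2 - r) * r - a ^ 2 := by nlinarith
    have h5 : 0 < 1 - r := by linarith
    positivity
  have hright : 0 < κ * (2 + r) ^ 2 + β * (2 + r) + γ := by
    rw [← hf]
    have h3 : (1 - a) * ((2 + r) ^ 2 - r ^ 2) * (2 + a - r) ^ 2 -
      4 * (1 + a) * (1 - r) * (2 + r - a) ^ 2 =
        4 * (8 * (r - a) * (a * r) + 2 * (r - a) ^ 3) := by ring
    rw [h3]
    have h4 : 0 < r - a := by linarith
    have h5 : 0 < r := by linarith
    positivity
  have h3 := hf n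
  have hgoal : 0 < κ * n ^ 2 + β * n + γ := by
    by_cases hk : 0 ≤ κ
    · have h4 : κ * (2 - r) ^ 2 ≤ κ * n ^ 2 := by
        apply mul_le_mul_of_nonneg_left _ hk
        apply pow_le_pow_left₀ (by linarith) h1
      have h5 : β * (2 - r) ≤ β * n := mul_le_mul_of_nonneg_left h1 hβ0.le
      linarith
    · push Not at hk
      -- concave case
      have hr0 : 0 < r := by linarith
      have hid : 2 * r * (κ * n ^ 2 + β * n + γ) =
          (2 + r - n) * (κ * (2 - r) ^ 2 + β * (2 - r) + γ) +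
          (n - (2 - r)) * (κ * (2 + r) ^ 2 + β * (2 + r) + γ) +
          (-κ) * (2 * r) * ((2 + r - n) * (n - (2 - r))) := by ring
      have h6 : 0 ≤ (-κ) * (2 * r) * ((2 + r - n) * (n - (2 - r))) := by
        apply mul_nonneg (mul_nonneg (by linarith) (by linarith))
        exact mul_nonneg (by linarith) (by linarith)
      have h7 : 0 < (2 + r - n) * (κ * (2 - r) ^ 2 + β * (2 - r) + γ) +
          (n - (2 - r)) * (κ * (2 + r) ^ 2 + β * (2 + r) + γ) := by
        rcases h1.eq_or_lt with h8 | h8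
        · rw [← h8]
          have : 0 < (2 + r - (2 - r)) * (κ * (2 - r) ^ 2 + β * (2 - r) + γ) :=
            mul_pos (by linarith) hleft
          linarith
        · have h9 : 0 < (n - (2 - r)) * (κ * (2 + r) ^ 2 + β * (2 + r) + γ) :=
            mul_pos (by linarith) hright
          have h10 : 0 ≤ (2 + r - n) * (κ * (2 - r) ^ 2 + β * (2 - r) + γ) :=
            mul_nonneg (by linarith) hleft.le
          linarith
      have h11 : 0 < 2 * r * (κ * n ^ 2 + β * n + γ) := by rw [hid]; linarith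
      exact (mul_pos_iff_of_pos_left (by linarith)).1 h11
  linarith

lemma key {a r : ℝ} (ha : 0 < a) (har : a < r) (hr : r < 1) {z : ℂ} (hz : ‖z‖ = r) :
    gr 1 a ((-r : ℝ) : ℂ) < gr (-1) a z := by
  have hb1 : (0 : ℝ) < 1 + (-1) * a := by linarith
  have hb2 : (0 : ℝ) < 1 + 1 * a := by linarith
  have hza : z ≠ (a : ℂ) := by
    rintro rfl
    rw [Complex.norm_real, Real.norm_eq_abs, abs_of_pos ha] at hz
    linarith
  have hra : ((-r : ℝ) : ℂ) ≠ (a : ℂ) := by
    rw [Ne, Complex.ofReal_inj]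
    linarith
  apply gr_lt (by norm_num) hb1 hza (by norm_num) hb2 hra
  -- the second domain
  have e1 : (1 : ℂ) + ((1 : ℝ) : ℂ) * ((-r : ℝ) : ℂ) = ((1 - r : ℝ) : ℂ) := by push_cast; ring
  have hn1 : ‖((1 - r : ℝ) : ℂ)‖ = 1 - r := by
    rw [Complex.norm_real, Real.norm_eq_abs, abs_of_pos (by linarith)]
  have hN1 : NN 1 a ((-r : ℝ) : ℂ) = 2 + a - r := by
    unfold NN
    rw [e1, hn1]; ring
  have hp1 : pp 1 a ((-r : ℝ) : ℂ) = 2 * √((1 + a) * (1 - r)) := by
    unfold pp rho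
    rw [e1, hn1, Complex.ofReal_re, show (1 - r + (1 - r)) / 2 = 1 - r by ring, one_mul, mul_assoc,
      ← Real.sqrt_mul (by linarith)]
  -- the first domain
  have e2 : (1 : ℂ) + ((-1 : ℝ) : ℂ) * z = 1 - z := by push_cast; ring
  set m : ℝ := ‖1 - z‖ with hm
  have hm0 : 0 ≤ m := norm_nonneg _
  have hm2 : m ^ 2 = 1 - 2 * z.re + r ^ 2 := by
    rw [hm, ← hz, ← Complex.normSq_eq_norm_sq, ← Complex.normSq_eq_norm_sq, Complex.normSq_apply,
      Complex.normSq_apply]
    simp only [Complex.sub_re, Complex.sub_im, Complex.one_re, Complex.one_im]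
    ring
  have hN2 : NN (-1) a z = m + 1 - a := by
    unfold NN
    rw [e2, ← hm]; ring
  have hre : (m + (1 - z).re) / 2 = ((m + 1) ^ 2 - r ^ 2) / 4 := by
    rw [Complex.sub_re, Complex.one_re]
    linarith [hm2]
  have hp2 : pp (-1) a z = √((1 - a) * ((m + 1) ^ 2 - r ^ 2)) := by
    unfold pp rho
    have ha1 : (0 : ℝ) ≤ 1 - a := by linarith
    rw [e2, ← hm, hre, show (1 : ℝ) + (-1) * a = 1 - a by ring, mul_assoc,
      ← Real.sqrt_mul ha1]
    rw [show (1 - a) * ((m + 1) ^ 2 - r ^ 2) = 2 ^ 2 * ((1 - a) * (((m + 1) ^ 2 - r ^ 2) / 4)) by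
      ring, Real.sqrt_mul (by norm_num : (0 : ℝ) ≤ 2 ^ 2), Real.sqrt_sq (by norm_num : (0:ℝ) ≤ 2)]
  have hmlo : 1 - r ≤ m := by
    have := norm_sub_norm_le (1 : ℂ) z
    rw [norm_one, hz, ← hm] at this
    exact this
  have hmhi : m ≤ 1 + r := by
    have := norm_sub_le (1 : ℂ) z
    rw [norm_one, hz, ← hm] at this
    exact this
  rw [hN1, hp1, hN2, hp2]
  have hpoly := poly_ineq (n := m + 1) ha har hr (by linarith) (by linarith)
  have hX : 0 ≤ (1 + a) * (1 - r) := mul_nonneg (by linarith) (by linarith)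
  have hY : 0 ≤ (1 - a) * ((m + 1) ^ 2 - r ^ 2) := by
    apply mul_nonneg (by linarith)
    nlinarith
  have hl : 2 * √((1 + a) * (1 - r)) * (m + 1 - a) =
      √(4 * (1 + a) * (1 - r) * (m + 1 - a) ^ 2) := by
    rw [show 4 * (1 + a) * (1 - r) * (m + 1 - a) ^ 2 =
      ((1 + a) * (1 - r)) * (2 * (m + 1 - a)) ^ 2 by ring, Real.sqrt_mul hX,
      Real.sqrt_sq (by linarith)]
    ring
  have hrr : √((1 - a) * ((m + 1) ^ 2 - r ^ 2)) * (2 + a - r) =
      √((1 - a) * ((m + 1) ^ 2 - r ^ 2) * (2 + a - r) ^ 2) := by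
    rw [Real.sqrt_mul hY, Real.sqrt_sq (by linarith)]
  rw [hl, hrr]
  apply Real.sqrt_lt_sqrt _ hpoly
  have : 0 ≤ 4 * ((1 + a) * (1 - r)) := by linarith
  nlinarith [sq_nonneg (m + 1 - a)]

lemma Dom_neg_eq : Dom (-1) = {z : ℂ | ¬ (z.im = 0 ∧ 1 ≤ z.re)} := by
  ext z
  rw [mem_Dom_neg, Complex.mem_slitPlane_iff, mem_ofPred_eq, Complex.sub_re, Complex.one_re,
    Complex.sub_im, Complex.one_im]
  constructor
  · rintro (h | h) ⟨h1, h2⟩
    · linarith
    · exact h (by linarith)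
  · intro h
    by_cases h1 : z.im = 0
    · left
      by_contra h2
      exact h ⟨h1, by linarith⟩
    · right
      intro h2
      exact h1 (by linarith)

lemma Dom_one_eq : Dom 1 = {z : ℂ | ¬ (z.im = 0 ∧ z.re ≤ -1)} := by
  ext z
  rw [mem_Dom_one, Complex.mem_slitPlane_iff, mem_ofPred_eq, Complex.add_re, Complex.one_re,
    Complex.add_im, Complex.one_im]
  constructor
  · rintro (h | h) ⟨h1, h2⟩
    · linarith
    · exact h (by linarith)
  · intro h
    by_cases h1 : z.im = 0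
    · left
      by_contra h2
      exact h ⟨h1, by linarith⟩
    · right
      intro h2
      exact h1 (by linarith)

/-- **Negative answer to Q1.** Let `D = ℂ \ [1,∞)`. It is a simply connected domain, and its
circular symmetrisation is the simply connected domain `D^* = ℂ \ (-∞,-1]`. For *every* pole
`a ∈ (0,1)` both domains possess a Green's function with pole `a`, and for *every* radius
`r ∈ (a,1)` there is a level `lam > 0` for which the point `-r` belongs to `(D_lam)^*` but not to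
`(D^*)_lam`. -/
theorem result : ∃ D : Set ℂ, D = {z : ℂ | ¬ (z.im = 0 ∧ 1 ≤ z.re)} ∧
    circSymm D = {z : ℂ | ¬ (z.im = 0 ∧ z.re ≤ -1)} ∧
    IsOpen D ∧ IsConnected D ∧ SimplyConnectedSpace D ∧
    IsOpen (circSymm D) ∧ IsConnected (circSymm D) ∧ SimplyConnectedSpace (circSymm D) ∧
    ∀ a : ℝ, 0 < a → a < 1 → (a : ℂ) ∈ D ∧ (a : ℂ) ∈ circSymm D ∧
      ∃ g gs : ℂ → ℝ, IsGreen D (a : ℂ) g ∧ IsGreen (circSymm D) (a : ℂ) gs ∧
        ∀ r : ℝ, a < r → r < 1 → ∃ lam : ℝ, 0 < lam ∧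
          ((-r : ℝ) : ℂ) ∈ circSymm (levelSet D (a : ℂ) g lam) ∧
          ((-r : ℝ) : ℂ) ∉ levelSet (circSymm D) (a : ℂ) gs lam := by
  refine ⟨Dom (-1), Dom_neg_eq, by rw [symm_eq, Dom_one_eq], Dom_open _, conn (by norm_num),
    simply (by norm_num), ?_, ?_, ?_, ?_⟩
  · rw [symm_eq]; exact Dom_open _
  · rw [symm_eq]; exact conn (by norm_num)
  · rw [symm_eq]; exact simply (by norm_num)
  intro a ha ha1
  rw [symm_eq]
  have hb1 : (0 : ℝ) < 1 + (-1) * a := by linarith
  have hb2 : (0 : ℝ) < 1 + 1 * a := by linarith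
  refine ⟨real_mem hb1, real_mem hb2, gr (-1) a, gr 1 a, isGreen (by norm_num) hb1,
    isGreen (by norm_num) hb2, ?_⟩
  intro r har hr
  have hra : ((-r : ℝ) : ℂ) ≠ (a : ℂ) := by
    rw [Ne, Complex.ofReal_inj]
    linarith
  have hnr : ‖((-r : ℝ) : ℂ)‖ = r := by
    rw [Complex.norm_real, Real.norm_eq_abs, abs_neg, abs_of_pos (by linarith)]
  refine ⟨gr 1 a ((-r : ℝ) : ℂ), ?_, ?_, ?_⟩
  · apply gr_pos (by norm_num) hb2 _ hra
    exact small_mem (by norm_num) (by rw [hnr]; exact hr)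
  · right
    refine ⟨?_, Or.inl ?_⟩
    · intro h
      rw [h, norm_zero] at hnr
      linarith
    · rw [hnr]
      intro z hz
      rw [mem_sphere_zero_iff_norm] at hz
      exact ⟨small_mem (by norm_num) (by rw [hz]; exact hr), Or.inr (key ha har hr hz)⟩
  · rintro ⟨-, h | h⟩
    · exact hra h
    · exact lt_irrefl _ h

end Pool.Agent.Results.MP_d9eea5_an.SlitPlane
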